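import Mathlib
import Pool.Agent.Lib_helper10.LogRank.Defs
import Pool.Agent.Lib_helper38.XA.Defs
import Pool.Agent.Lib_helper58.XA.E1g
import Pool.Agent.Lib_helper67.XA.K5

set_option autoImplicit false

/-! XA, block E2 (helper30): the evaluation game, asymptotic form -/

namespace Pool.Agent.XA

open Finset Filter Pool.Agent.XO Pool.Agent.Lib_helper10.LogRank

theorem e2_log {δ : ℝ} (hδ : 0 < δ) : ∃ K : ℝ, 0 ≤ K ∧ ∀ r : ℕ, 2 ≤ r →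
    ((Nat.clog 2 r : ℝ) + 1) ≤ K * (r : ℝ) ^ δ := by
  have hl2 : 0 < Real.log 2 := Real.log_pos (by norm_num)
  refine ⟨1 / (δ * Real.log 2) + 2, by positivity, fun r hr => ?_⟩
  have hr0 : (0 : ℝ) < r := by
    have : 0 < r := by omega
    exact_mod_cast this
  have hr1 : (1 : ℝ) ≤ r := by
    have : 1 ≤ r := by omega
    exact_mod_cast this
  have h1 : Nat.clog 2 r ≤ Nat.log 2 r + 1 := by
    apply Nat.clog_le_of_le_pow
    exact (Nat.lt_pow_succ_log_self (by norm_num) r).le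
  have h2 : (Nat.log 2 r : ℝ) ≤ Real.log r / Real.log 2 := by
    rw [le_div_iff₀ hl2, ← Real.log_pow]
    apply Real.log_le_log (by positivity)
    have : 2 ^ Nat.log 2 r ≤ r := Nat.pow_log_le_self 2 (by omega)
    exact_mod_cast this
  have h3 : Real.log r ≤ (r : ℝ) ^ δ / δ := Real.log_le_rpow_div hr0.le hδ
  have h4 : (1 : ℝ) ≤ (r : ℝ) ^ δ := Real.one_le_rpow hr1 hδ.le
  have h5 : (Nat.clog 2 r : ℝ) ≤ (Nat.log 2 r : ℝ) + 1 := by exact_mod_cast h1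
  have h6 : Real.log r / Real.log 2 ≤ (r : ℝ) ^ δ / δ / Real.log 2 :=
    div_le_div_of_nonneg_right h3 hl2.le
  have h7 : (r : ℝ) ^ δ / δ / Real.log 2 = 1 / (δ * Real.log 2) * (r : ℝ) ^ δ := by
    field_simp
  calc (Nat.clog 2 r : ℝ) + 1 ≤ (r : ℝ) ^ δ / δ / Real.log 2 + 2 := by linarith
    _ ≤ 1 / (δ * Real.log 2) * (r : ℝ) ^ δ + 2 * (r : ℝ) ^ δ := by rw [h7]; linarith
    _ = (1 / (δ * Real.log 2) + 2) * (r : ℝ) ^ δ := by ring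

theorem eval_game (h : NoAWorld) {ε : ℝ} (hε : 0 < ε) : ∃ C : ℝ, 0 ≤ C ∧ ∀ r : ℕ, 2 ≤ r →
    ∀ (V : Type) [AddCommGroup V] [Fintype V] [DecidableEq V] (S : Finset V), S.card ≤ r →
      (∀ c ∈ S, addOrderOf c ≤ r ^ 3) → ∀ (X Y : Type) (ξ : X → AddChar V ℂ) (F : Y → V → ℂ),
      (∀ y, BF (F y)) → (∀ y c, F y c ≠ 0 → c ∈ S) →
      ∃ π : Protocol X Y, (∀ x y, π.eval x y = decide (ev (F y) (ξ x) = -1)) ∧
        (π.cost : ℝ) ≤ C * (r : ℝ) ^ ε := by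
  obtain ⟨C, hC, hk⟩ := akill h (show 0 < ε / 2 by positivity)
  obtain ⟨K, hK, hl⟩ := e2_log (show 0 < ε / 4 by positivity)
  refine ⟨12 * K ^ 2 * C + 1, by positivity, ?_⟩
  intro r hr V _ _ _ S hS hord X Y ξ F hBF hsupp
  have hr0 : (0 : ℝ) < r := by
    have : 0 < r := by omega
    exact_mod_cast this
  have hr1 : (1 : ℝ) ≤ r := by
    have : 1 ≤ r := by omega
    exact_mod_cast this
  obtain ⟨π, hπ, hcost⟩ := game_rec (r := r) (D := ⌊C * (r : ℝ) ^ (ε / 2)⌋₊) hr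
    (fun V' _ _ _ F' h1 h2 h3 => by
      obtain ⟨T, hT, hT2, hT3⟩ := hk r hr V' F' h1 h2 h3
      exact ⟨T, Nat.le_floor hT, hT2, hT3⟩)
    (Nat.clog 2 (r + 1)) V S hS hord X Y ξ F hBF hsupp
    (fun y => by
      have h1 : spt (F y) ⊆ S := by
        intro c hc
        unfold spt at hc
        rw [Finset.mem_filter] at hc
        exact hsupp y c hc.2
      have h2 : ((spt (F y)).erase 0).card ≤ S.card :=
        (Finset.card_le_card (Finset.erase_subset _ _)).trans (Finset.card_le_card h1)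
      have h3 : r + 1 ≤ 2 ^ Nat.clog 2 (r + 1) := Nat.le_pow_clog (by norm_num) _
      omega)
  refine ⟨π, hπ, ?_⟩
  have hm : Nat.clog 2 (r + 1) ≤ Nat.clog 2 r + 1 := by
    apply Nat.clog_le_of_le_pow
    have h3 : r ≤ 2 ^ Nat.clog 2 r := Nat.le_pow_clog (by norm_num) _
    rw [pow_succ]
    omega
  have hm' : (Nat.clog 2 (r + 1) : ℝ) ≤ K * (r : ℝ) ^ (ε / 4) := by
    have h1 : (Nat.clog 2 (r + 1) : ℝ) ≤ (Nat.clog 2 r : ℝ) + 1 := by exact_mod_cast hm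
    exact h1.trans (hl r hr)
  have hD : ((⌊C * (r : ℝ) ^ (ε / 2)⌋₊ : ℕ) : ℝ) ≤ C * (r : ℝ) ^ (ε / 2) :=
    Nat.floor_le (by positivity)
  have hcost' : (π.cost : ℝ) ≤ (Nat.clog 2 (r + 1) : ℝ) *
      (((⌊C * (r : ℝ) ^ (ε / 2)⌋₊ : ℕ) : ℝ) * (12 * ((Nat.clog 2 r : ℝ) + 1))) + 1 := by
    exact_mod_cast hcost
  have hrε : (r : ℝ) ^ (ε / 4) * ((r : ℝ) ^ (ε / 2) * (r : ℝ) ^ (ε / 4)) = (r : ℝ) ^ ε := by
    rw [← Real.rpow_add hr0, ← Real.rpow_add hr0]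
    congr 1
    ring
  have h1ε : (1 : ℝ) ≤ (r : ℝ) ^ ε := Real.one_le_rpow hr1 hε.le
  have hl' := hl r hr
  calc (π.cost : ℝ) ≤ (Nat.clog 2 (r + 1) : ℝ) *
      (((⌊C * (r : ℝ) ^ (ε / 2)⌋₊ : ℕ) : ℝ) * (12 * ((Nat.clog 2 r : ℝ) + 1))) + 1 := hcost'
    _ ≤ (K * (r : ℝ) ^ (ε / 4)) *
      ((C * (r : ℝ) ^ (ε / 2)) * (12 * (K * (r : ℝ) ^ (ε / 4)))) + 1 := by
        gcongr
    _ = 12 * K ^ 2 * C * ((r : ℝ) ^ (ε / 4) * ((r : ℝ) ^ (ε / 2) * (r : ℝ) ^ (ε / 4))) + 1 := by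
        ring
    _ ≤ (12 * K ^ 2 * C + 1) * (r : ℝ) ^ ε := by
        rw [hrε]
        nlinarith

end Pool.Agent.XA
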